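import Pool.Agent.helper26.AP.SpecQ

set_option autoImplicit false

/-!
# AP (MP_16912e_nt), row QA2
-/

namespace Pool.Agent.AP

open Finset NumberField Pool.Agent.helper3.FT Pool.Agent.helper47.RA Pool.Agent.T5

theorem QA2 (hQA1 : QA1_stmt) : QA2_stmt := by
  intro p N Y r z y q x hp hB hq hrz hd
  obtain ⟨h1, h2, h3, h4⟩ := hQA1 p N Y r z y x hp hB
  have hco : Nat.Coprime y (r * z) := by
    have := h4.co
    rwa [mul_one] at this
  refine ⟨h4.z1, h4.z2, h4.y1, ?_, h4.sx, ?_, h4.n1, h4.n2⟩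
  · exact Nat.Coprime.mul_left hco ((Nat.Prime.coprime_iff_not_dvd hq).2 hrz)
  · show ((y * q : ℕ) : ℤ) ^ 2 ∣ x ^ 2 - 4 * (r : ℤ) * (z : ℤ) ^ p
    rw [← h3]
    push_cast
    rw [mul_pow, mul_comm ((y : ℤ) ^ 2)]
    exact mul_dvd_mul_right hd _

end Pool.Agent.AP
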