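import Pool.Agent.helper94.AP.SpecM

set_option autoImplicit false

/-!
# AP (MP_16912e_nt), row MBX
-/

namespace Pool.Agent.AP

open Finset NumberField Pool.Agent.helper3.FT Pool.Agent.helper47.RA Pool.Agent.T5

theorem MBX_mem (w q : ℕ) : q ∈ pr w ↔ q.Prime ∧ q ≤ w := by
  unfold pr
  rw [mem_filter, mem_range]
  constructor
  · rintro ⟨h1, h2⟩
    exact ⟨h2, by omega⟩
  · rintro ⟨h1, h2⟩
    exact ⟨by omega, h1⟩

theorem MBX_LLpos (w : ℕ) : 1 ≤ LL w := by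
  unfold LL
  have h : 0 < ∏ q ∈ (pr w).erase 2, q ^ 2 := by
    refine prod_pos fun q hq => ?_
    have h1 := (MBX_mem w q).1 (mem_of_mem_erase hq)
    exact pow_pos h1.1.pos 2
  omega

theorem MBX_LL (w : ℕ) (hw : 2 ≤ w) (q : ℕ) (hq : q.Prime) : q ∣ LL w ↔ q ≤ w := by
  unfold LL
  rw [hq.dvd_mul]
  constructor
  · rintro (h | h)
    · have h1 : q ∣ 2 ^ 4 := by
        have : (16 : ℕ) = 2 ^ 4 := by norm_num
        rwa [this] at h
      have h2 := hq.dvd_of_dvd_pow h1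
      have h3 := (Nat.prime_dvd_prime_iff_eq hq Nat.prime_two).1 h2
      omega
    · rw [hq.prime.dvd_finsetProd_iff] at h
      obtain ⟨s, hs, hd⟩ := h
      have h1 := (MBX_mem w s).1 (mem_of_mem_erase hs)
      have h2 := hq.dvd_of_dvd_pow hd
      have h3 := (Nat.prime_dvd_prime_iff_eq hq h1.1).1 h2
      rw [h3]
      exact h1.2
  · intro h
    by_cases h2 : q = 2
    · left
      rw [h2]
      norm_num
    · right
      have h3 : q ∈ (pr w).erase 2 := mem_erase.2 ⟨h2, (MBX_mem w q).2 ⟨hq, h⟩⟩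
      exact dvd_trans (dvd_pow_self q two_ne_zero) (dvd_prod_of_mem (fun q => q ^ 2) h3)

theorem MBX_radcop (w y r : ℕ) (hr : r ∣ PP w) : Nat.Coprime (rad w y) r := by
  unfold rad
  refine Nat.Coprime.prod_left fun q hq => ?_
  rw [mem_filter] at hq
  have hqp := Nat.prime_of_mem_primeFactors hq.1
  rw [Nat.Prime.coprime_iff_not_dvd hqp]
  intro h
  have h1 : q ∣ PP w := dvd_trans h hr
  unfold PP at h1
  rw [hqp.prime.dvd_finsetProd_iff] at h1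
  obtain ⟨s, hs, hd⟩ := h1
  have h2 := (MBX_mem w s).1 hs
  have h3 := (Nat.prime_dvd_prime_iff_eq hqp h2.1).1 hd
  have := hq.2
  omega

/-- the weight in a class -/
theorem MBX_cw (w : ℕ) (hw : 2 ≤ w) (g : ℕ → ℕ → ℕ → ℝ)
    (hz : ∀ r a b q, q ∈ pr w → q ∣ b → q ∣ r * a → g r a b = 0) (r z y : ℕ) (hy : 1 ≤ y) :
    cw w g r z y = g r (z % LL w) (y % LL w) *
      (if Nat.Coprime (rad w y) (r * z) then (kap w y ((r * z : ℕ) : ℤ) : ℝ) else 0) := by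
  unfold cw
  have hrad : rad w y ∣ y := by
    unfold rad
    exact dvd_trans (prod_dvd_prod_of_subset _ _ _ (filter_subset _ _)) (Nat.prod_primeFactors_dvd y)
  by_cases hc : Nat.Coprime y (r * z)
  · rw [if_pos hc, if_pos (Nat.Coprime.coprime_dvd_left hrad hc)]
  · rw [if_neg hc]
    obtain ⟨q, hq, hqy, hqz⟩ := Nat.Prime.not_coprime_iff_dvd.1 hc
    by_cases hqw : q ≤ w
    · have h1 : q ∣ LL w := (MBX_LL w hw q hq).2 hqw
      have h2 : g r (z % LL w) (y % LL w) = 0 := by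
        refine hz r _ _ q ((MBX_mem w q).2 ⟨hq, hqw⟩) ?_ ?_
        · exact (Nat.dvd_mod_iff h1).2 hqy
        · rcases hq.dvd_mul.1 hqz with h | h
          · exact Dvd.dvd.mul_right h _
          · exact Dvd.dvd.mul_left ((Nat.dvd_mod_iff h1).2 h) _
      rw [h2, zero_mul]
    · have h1 : q ∣ rad w y := by
        unfold rad
        refine dvd_prod_of_mem (fun q => q) (mem_filter.2 ⟨?_, by omega⟩)
        exact Nat.mem_primeFactors.2 ⟨hq, hqy, by omega⟩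
      rw [if_neg, mul_zero]
      intro hco
      exact Nat.Prime.not_coprime_iff_dvd.2 ⟨q, hq, h1, hqz⟩ hco

theorem MBX_split (L : ℕ) (hL : 1 ≤ L) (S T : Finset ℕ) (f : ℕ → ℕ → ℝ) :
    ∑ z ∈ S, ∑ y ∈ T, f z y = ∑ a ∈ range L, ∑ b ∈ range L,
      ∑ z ∈ S.filter (fun z => z ≡ a [MOD L]), ∑ y ∈ T.filter (fun y => y ≡ b [MOD L]), f z y := by
  have h1 : ∀ (S : Finset ℕ) (h : ℕ → ℝ), ∑ z ∈ S, h z =
      ∑ a ∈ range L, ∑ z ∈ S.filter (fun z => z ≡ a [MOD L]), h z := by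
    intro S h
    rw [← sum_fiberwise_of_maps_to (s := S) (t := range L) (g := fun z => z % L)
      (fun z _ => mem_range.2 (Nat.mod_lt z (by omega)))]
    refine sum_congr rfl fun a ha => ?_
    refine sum_congr ?_ fun _ _ => rfl
    refine filter_congr fun z _ => ?_
    unfold Nat.ModEq
    rw [Nat.mod_eq_of_lt (mem_range.1 ha)]
  rw [h1 S]
  refine sum_congr rfl fun a _ => ?_
  rw [sum_comm' (s := range L) (t := fun _ => S.filter (fun z => z ≡ a [MOD L]))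
    (s' := fun _ => range L) (t' := S.filter (fun z => z ≡ a [MOD L])) (by intro x y; tauto)]
  refine sum_congr rfl fun z _ => ?_
  rw [h1 T]

theorem MBX_floor (i : ℕ) (k Z : ℝ) (hk : 0 < k) (hZ : 0 ≤ Z) :
    ⌊(i : ℝ) / k * Z⌋₊ ≤ ⌊((i : ℝ) + 1) / k * Z⌋₊ ∧
    |((⌊((i : ℝ) + 1) / k * Z⌋₊ : ℝ) - (⌊(i : ℝ) / k * Z⌋₊ : ℝ)) - Z / k| ≤ 1 := by
  have h0 : 0 ≤ (i : ℝ) / k * Z := by positivity
  have h1 : 0 ≤ ((i : ℝ) + 1) / k * Z := by positivity
  have h2 : ((i : ℝ) + 1) / k * Z = (i : ℝ) / k * Z + Z / k := by ring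
  have h3 : 0 ≤ Z / k := by positivity
  refine ⟨Nat.floor_mono (by rw [h2]; linarith), ?_⟩
  have a1 := Nat.floor_le h0
  have a2 := Nat.floor_le h1
  have a3 := Nat.lt_floor_add_one ((i : ℝ) / k * Z)
  have a4 := Nat.lt_floor_add_one (((i : ℝ) + 1) / k * Z)
  rw [abs_le]
  constructor <;> linarith

theorem MBX_box (A B z v : ℝ) (hz : 0 ≤ z) (hB : 0 ≤ B) (h1 : |A - z| ≤ 1) (h2 : |B - v| ≤ 1) :
    |A * B - z * v| ≤ z + v + 1 := by
  have e : A * B - z * v = (A - z) * B + z * (B - v) := by ring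
  rw [e]
  have a1 : |(A - z) * B| ≤ 1 * B := by
    rw [abs_mul, abs_of_nonneg hB]
    exact mul_le_mul_of_nonneg_right h1 hB
  have a2 : |z * (B - v)| ≤ z * 1 := by
    rw [abs_mul, abs_of_nonneg hz]
    exact mul_le_mul_of_nonneg_left h2 hz
  have a3 := (abs_le.1 h2).2
  have a4 := abs_add_le ((A - z) * B) (z * (B - v))
  linarith

/-- the estimate for one pair of classes -/
theorem MBX_one (w L : ℕ) (hw : 2 ≤ w) (hL : 1 ≤ L) (S1 S2 A B z v E1 E2 : ℝ) (hz : 0 ≤ z)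
    (hv : 0 ≤ v) (hB : 0 ≤ B) (h1 : |A - z| ≤ 1) (h2 : |B - v| ≤ 1) (hS2 : |S2| ≤ E1)
    (hS1 : |S1 - A * B / (L : ℝ) ^ 2| ≤ 2 / (w * (L : ℝ) ^ 2) * (A * B) + E2) :
    |S1 + S2 - z * v / (L : ℝ) ^ 2| ≤ 2 / w * (z * v) / (L : ℝ) ^ 2 + (E1 + E2 + 2 * (z + v + 1)) := by
  have hb := MBX_box A B z v hz hB h1 h2
  have hw' : (2 : ℝ) ≤ w := by exact_mod_cast hw
  have hL' : (1 : ℝ) ≤ (L : ℝ) ^ 2 := one_le_pow₀ (by exact_mod_cast hL)
  have hLp : (0 : ℝ) < (L : ℝ) ^ 2 := by linarith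
  have e : S1 + S2 - z * v / (L : ℝ) ^ 2 =
      (S1 - A * B / (L : ℝ) ^ 2) + S2 + (A * B - z * v) / (L : ℝ) ^ 2 := by ring
  have t1 : |(A * B - z * v) / (L : ℝ) ^ 2| ≤ z + v + 1 := by
    rw [abs_div, abs_of_pos hLp, div_le_iff₀ hLp]
    have : (z + v + 1) * 1 ≤ (z + v + 1) * (L : ℝ) ^ 2 :=
      mul_le_mul_of_nonneg_left hL' (by linarith)
    linarith
  have t2 : 2 / (w * (L : ℝ) ^ 2) * (A * B) ≤ 2 / w * (z * v) / (L : ℝ) ^ 2 + (z + v + 1) := by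
    have h3 : A * B ≤ z * v + (z + v + 1) := by linarith [(abs_le.1 hb).2]
    have h4 : 2 / (w * (L : ℝ) ^ 2) ≤ 1 := by
      rw [div_le_one (by positivity)]
      nlinarith
    have h5 : 0 ≤ 2 / (w * (L : ℝ) ^ 2) := by positivity
    calc 2 / (w * (L : ℝ) ^ 2) * (A * B) ≤ 2 / (w * (L : ℝ) ^ 2) * (z * v + (z + v + 1)) :=
          mul_le_mul_of_nonneg_left h3 h5
      _ = 2 / (w * (L : ℝ) ^ 2) * (z * v) + 2 / (w * (L : ℝ) ^ 2) * (z + v + 1) := by ring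
      _ ≤ 2 / (w * (L : ℝ) ^ 2) * (z * v) + 1 * (z + v + 1) := by
          have := mul_le_mul_of_nonneg_right h4 (show 0 ≤ z + v + 1 by linarith)
          linarith
      _ = 2 / w * (z * v) / (L : ℝ) ^ 2 + (z + v + 1) := by
          rw [one_mul]
          congr 1
          field_simp
  rw [e]
  have a1 := abs_add_le ((S1 - A * B / (L : ℝ) ^ 2) + S2) ((A * B - z * v) / (L : ℝ) ^ 2)
  have a2 := abs_add_le (S1 - A * B / (L : ℝ) ^ 2) S2
  linarith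

/-- the last estimate -/
theorem MBX_last (G G0 K Z V ρ ε x T : ℝ) (hG0 : 1 ≤ G0) (hG : G ≤ G0) (hGp : 0 ≤ G) (hK : 1 ≤ K)
    (hρ : 0 < ρ) (hε : ε = ρ / (6 * G0 * K ^ 2)) (hx : x ≤ ε) (hT1 : 1 ≤ T)
    (hT : 18 * G0 * K ^ 2 / ρ ≤ T) (hZ : T ≤ Z) (hV : T ≤ V) :
    G * (x * (Z * (2 * V)) + ε * (Z * (2 * V)) + 2 * (Z / K + V / K + 1)) ≤
      ρ * (Z / K * (V / K)) := by
  have hK2 : 0 < K ^ 2 := by positivity
  have hZ0 : 0 < Z := by linarith
  have hV0 : 0 < V := by linarith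
  have hT0 : 0 < T := by linarith
  have hεp : 0 < ε := by rw [hε]; positivity
  have hZK : Z / K ≤ Z := div_le_self hZ0.le hK
  have hVK : V / K ≤ V := div_le_self hV0.le hK
  have b1 : Z / K + V / K + 1 ≤ 3 * (Z * V) / T := by
    have c1 : Z ≤ Z * V / T := by
      rw [le_div_iff₀ hT0]
      exact mul_le_mul_of_nonneg_left hV hZ0.le
    have c2 : V ≤ Z * V / T := by
      rw [le_div_iff₀ hT0]
      nlinarith
    have c3 : 1 ≤ Z * V / T := by
      rw [le_div_iff₀ hT0]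
      nlinarith
    have : 3 * (Z * V) / T = Z * V / T + Z * V / T + Z * V / T := by ring
    linarith
  have b2 : 2 * (Z / K + V / K + 1) ≤ ε * (Z * (2 * V)) := by
    have d1 : 3 * (Z * V) / T ≤ ε * (Z * V) := by
      rw [div_le_iff₀ hT0, hε]
      have d2 : 3 ≤ ρ / (6 * G0 * K ^ 2) * T := by
        have d3 : ρ / (6 * G0 * K ^ 2) * (18 * G0 * K ^ 2 / ρ) = 3 := by
          field_simp
          norm_num
        rw [← d3]
        exact mul_le_mul_of_nonneg_left hT (by positivity)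
      have d4 := mul_le_mul_of_nonneg_right d2 (show 0 ≤ Z * V by positivity)
      linarith
    linarith
  have b3 : x * (Z * (2 * V)) ≤ ε * (Z * (2 * V)) := mul_le_mul_of_nonneg_right hx (by positivity)
  have b4 : x * (Z * (2 * V)) + ε * (Z * (2 * V)) + 2 * (Z / K + V / K + 1) ≤
      3 * (ε * (Z * (2 * V))) := by linarith
  have b5 : G0 * (3 * (ε * (Z * (2 * V)))) = ρ * (Z / K * (V / K)) := by
    rw [hε]
    field_simp
    ring
  rw [← b5]
  calc G * (x * (Z * (2 * V)) + ε * (Z * (2 * V)) + 2 * (Z / K + V / K + 1))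
      ≤ G * (3 * (ε * (Z * (2 * V)))) := mul_le_mul_of_nonneg_left b4 hGp
    _ ≤ G0 * (3 * (ε * (Z * (2 * V)))) := mul_le_mul_of_nonneg_right hG (by positivity)

theorem MBX (hBIL : BIL_stmt) (hBS : BS_stmt) : MBX_stmt := by
  intro w hw g hg hz K hK η ρ hη hρ
  have hL := MBX_LLpos w
  obtain ⟨c, N₁, hc, hB⟩ := hBIL w (LL w) hw hL (MBX_LL w hw) (η / 2) (half_pos hη)
  obtain ⟨G0, hG0⟩ : ∃ G0 : ℝ, G0 = (∑ r ∈ (PP w).divisors, ∑ a ∈ range (LL w),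
    ∑ b ∈ range (LL w), g r a b) + 1 := ⟨_, rfl⟩
  have hG01 : 1 ≤ G0 := by
    rw [hG0]
    have : 0 ≤ ∑ r ∈ (PP w).divisors, ∑ a ∈ range (LL w), ∑ b ∈ range (LL w), g r a b :=
      sum_nonneg fun r _ => sum_nonneg fun a _ => sum_nonneg fun b _ => hg r a b
    linarith
  have hK1 : (1 : ℝ) ≤ K := by exact_mod_cast hK
  have hKp : (0 : ℝ) < K := by linarith
  obtain ⟨ε, hε⟩ : ∃ ε : ℝ, ε = ρ / (6 * G0 * (K : ℝ) ^ 2) := ⟨_, rfl⟩
  have hεp : 0 < ε := by rw [hε]; positivity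
  obtain ⟨T₀, hS⟩ := hBS w (LL w) hw hL (MBX_LL w hw) ε hεp
  obtain ⟨T, hT⟩ : ∃ T : ℝ, T = max (max T₀ 1) (18 * G0 * (K : ℝ) ^ 2 / ρ) := ⟨_, rfl⟩
  have hTa : T₀ ≤ T := by rw [hT]; exact le_trans (le_max_left _ _) (le_max_left _ _)
  have hTb : 1 ≤ T := by rw [hT]; exact le_trans (le_max_right _ _) (le_max_left _ _)
  have hTc : 18 * G0 * (K : ℝ) ^ 2 / ρ ≤ T := by rw [hT]; exact le_max_right _ _
  have hev : ∀ᶠ N : ℝ in Filter.atTop, N₁ ≤ N ∧ 2 ≤ N ∧ T ≤ N ^ η ∧ ((PP w : ℕ) : ℝ) ≤ N ^ c ∧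
      N ^ (-c) ≤ ε := by
    refine (Filter.eventually_ge_atTop N₁).and ((Filter.eventually_ge_atTop 2).and
      (((tendsto_rpow_atTop hη).eventually_ge_atTop T).and
      (((tendsto_rpow_atTop hc).eventually_ge_atTop _).and ?_)))
    exact ((tendsto_rpow_neg_atTop hc).eventually (eventually_lt_nhds hεp)).mono fun x hx => hx.le
  obtain ⟨N₀, hN₀⟩ := Filter.eventually_atTop.1 hev
  refine ⟨N₀, ?_⟩
  intro N Z V hN hZ1 hZ2 hV1 hV2 r hr i hi j hj
  obtain ⟨n1, n2, n3, n4, n5⟩ := hN₀ N hN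
  have hN0 : 0 < N := by linarith
  have hZT : T ≤ Z := le_trans n3 hZ1
  have hVT : T ≤ V := le_trans n3 hV1
  have hZ0 : 0 < Z := by linarith
  have hV0 : 0 < V := by linarith
  have hrd : r ∣ PP w := (Nat.mem_divisors.1 hr).1
  have hr1 : 1 ≤ r := Nat.pos_of_mem_divisors hr
  have hrP : (r : ℝ) ≤ ((PP w : ℕ) : ℝ) := by exact_mod_cast Nat.divisor_le hr
  have hp2 : (2 * N) ^ (η / 2) ≤ N ^ η := by
    have e1 : N ^ η = (N ^ (2 : ℝ)) ^ (η / 2) := by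
      rw [← Real.rpow_mul hN0.le]
      congr 1
      ring
    rw [e1]
    refine Real.rpow_le_rpow (by positivity) ?_ (by positivity)
    rw [Real.rpow_two]
    nlinarith
  have hpc : N ^ c ≤ (2 * N) ^ c := Real.rpow_le_rpow hN0.le (by linarith) hc.le
  have hpm : (2 * N) ^ (-c) ≤ ε := by
    refine le_trans ?_ n5
    exact Real.rpow_le_rpow_of_nonpos hN0 (by linarith) (by linarith)
  obtain ⟨fz, dz⟩ := MBX_floor i K Z hKp hZ0.le
  obtain ⟨fv, dv⟩ := MBX_floor j K V hKp hV0.le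
  obtain ⟨Z₁, hZ₁⟩ : ∃ n : ℕ, n = ⌊(i : ℝ) / K * Z⌋₊ := ⟨_, rfl⟩
  obtain ⟨Z₂, hZ₂⟩ : ∃ n : ℕ, n = ⌊((i : ℝ) + 1) / K * Z⌋₊ := ⟨_, rfl⟩
  obtain ⟨V₁, hV₁⟩ : ∃ n : ℕ, n = ⌊(j : ℝ) / K * V⌋₊ := ⟨_, rfl⟩
  obtain ⟨V₂, hV₂⟩ : ∃ n : ℕ, n = ⌊((j : ℝ) + 1) / K * V⌋₊ := ⟨_, rfl⟩
  rw [← hZ₁, ← hZ₂] at fz dz
  rw [← hV₁, ← hV₂] at fv dv
  rw [← hZ₁, ← hZ₂, ← hV₁, ← hV₂]
  have hi1 : (i : ℝ) + 1 ≤ K := by exact_mod_cast mem_range.1 hi
  have hj1 : (j : ℝ) + 1 ≤ 2 * K := by exact_mod_cast mem_range.1 hj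
  have hZ₂Z : (Z₂ : ℝ) ≤ Z := by
    rw [hZ₂]
    refine le_trans (Nat.floor_le (by positivity)) ?_
    have h1 : ((i : ℝ) + 1) / K ≤ 1 := (div_le_one hKp).2 hi1
    have h2 := mul_le_mul_of_nonneg_right h1 hZ0.le
    linarith
  have hV₂V : (V₂ : ℝ) ≤ 2 * V := by
    rw [hV₂]
    refine le_trans (Nat.floor_le (by positivity)) ?_
    have h1 : ((j : ℝ) + 1) / K ≤ 2 := by
      rw [div_le_iff₀ hKp]
      exact hj1
    exact mul_le_mul_of_nonneg_right h1 hV0.le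
  have hB0 : 0 ≤ (V₂ : ℝ) - V₁ := by
    have : (V₁ : ℝ) ≤ V₂ := by exact_mod_cast fv
    linarith
  have key : ∀ a b : ℕ, |(∑ z ∈ (Ioc Z₁ Z₂).filter (fun z => z ≡ a [MOD LL w]),
      ∑ y ∈ (Ioc V₁ V₂).filter (fun y => y ≡ b [MOD LL w]),
        (if Nat.Coprime (rad w y) (r * z) then (kap w y ((r * z : ℕ) : ℤ) : ℝ) else 0)) -
        Z / K * (V / K) / (LL w : ℝ) ^ 2| ≤
      2 / w * (Z / K * (V / K)) / (LL w : ℝ) ^ 2 +
        ((2 * N) ^ (-c) * (Z * (2 * V)) + ε * (Z * (2 * V)) + 2 * (Z / K + V / K + 1)) := by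
    intro a b
    have s2 := hB (2 * N) Z (2 * V) (by linarith) (le_trans hp2 hZ1) (by linarith)
      (by linarith) (by linarith) r hr1 (by linarith) a b Z₁ Z₂ V₁ V₂ hZ₂Z hV₂V
    have s1 := hS Z (2 * V) (by linarith) (by linarith) a b Z₁ Z₂ V₁ V₂ hZ₂Z hV₂V fz fv
    have hsplit : (∑ z ∈ (Ioc Z₁ Z₂).filter (fun z => z ≡ a [MOD LL w]),
        ∑ y ∈ (Ioc V₁ V₂).filter (fun y => y ≡ b [MOD LL w]),
          (if Nat.Coprime (rad w y) (r * z) then (kap w y ((r * z : ℕ) : ℤ) : ℝ) else 0)) =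
        (∑ z ∈ (Ioc Z₁ Z₂).filter (fun z => z ≡ a [MOD LL w]),
          ∑ y ∈ (Ioc V₁ V₂).filter (fun y => y ≡ b [MOD LL w]),
            if Nat.Coprime (rad w y) z then (1 : ℝ) else 0) +
        ∑ z ∈ (Ioc Z₁ Z₂).filter (fun z => z ≡ a [MOD LL w]),
          ∑ y ∈ (Ioc V₁ V₂).filter (fun y => y ≡ b [MOD LL w]),
            if Nat.Coprime (rad w y) (r * z) then ((kap w y ((r * z : ℕ) : ℤ) : ℝ) - 1) else 0 := by
      rw [← sum_add_distrib]
      refine sum_congr rfl fun z _ => ?_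
      rw [← sum_add_distrib]
      refine sum_congr rfl fun y _ => ?_
      have hcop : Nat.Coprime (rad w y) (r * z) ↔ Nat.Coprime (rad w y) z := by
        rw [Nat.coprime_mul_iff_right]
        exact ⟨fun h => h.2, fun h => ⟨MBX_radcop w y r hrd, h⟩⟩
      by_cases hcp : Nat.Coprime (rad w y) z
      · rw [if_pos (hcop.2 hcp), if_pos hcp, if_pos (hcop.2 hcp)]
        ring
      · rw [if_neg (fun h => hcp (hcop.1 h)), if_neg hcp, if_neg (fun h => hcp (hcop.1 h)), add_zero]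
    rw [hsplit]
    exact MBX_one w (LL w) hw hL _ _ ((Z₂ : ℝ) - Z₁) ((V₂ : ℝ) - V₁) (Z / K) (V / K) _ _
      (by positivity) (by positivity) hB0 dz dv s2 s1
  have hcwsum : ∑ z ∈ Ioc Z₁ Z₂, ∑ y ∈ Ioc V₁ V₂, cw w g r z y =
      ∑ a ∈ range (LL w), ∑ b ∈ range (LL w), g r a b *
        (∑ z ∈ (Ioc Z₁ Z₂).filter (fun z => z ≡ a [MOD LL w]),
          ∑ y ∈ (Ioc V₁ V₂).filter (fun y => y ≡ b [MOD LL w]),
            (if Nat.Coprime (rad w y) (r * z) then (kap w y ((r * z : ℕ) : ℤ) : ℝ) else 0)) := by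
    rw [MBX_split (LL w) hL]
    refine sum_congr rfl fun a ha => sum_congr rfl fun b hb => ?_
    rw [mul_sum]
    refine sum_congr rfl fun z hz' => ?_
    rw [mul_sum]
    refine sum_congr rfl fun y hy' => ?_
    have hy1 : 1 ≤ y := by
      have := (mem_Ioc.1 (mem_filter.1 hy').1).1
      omega
    have ea : z % LL w = a := by
      have h1 := (mem_filter.1 hz').2
      unfold Nat.ModEq at h1
      rw [h1, Nat.mod_eq_of_lt (mem_range.1 ha)]
    have eb : y % LL w = b := by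
      have h1 := (mem_filter.1 hy').2
      unfold Nat.ModEq at h1
      rw [h1, Nat.mod_eq_of_lt (mem_range.1 hb)]
    rw [MBX_cw w hw g hz r z y hy1, ea, eb]
  have hgam : gam w g r * (Z / K * (V / K)) = ∑ a ∈ range (LL w), ∑ b ∈ range (LL w),
      g r a b * (Z / K * (V / K) / (LL w : ℝ) ^ 2) := by
    unfold gam
    rw [div_mul_eq_mul_div, mul_div_assoc, sum_mul]
    refine sum_congr rfl fun a _ => ?_
    rw [sum_mul]
  have hgam2 : 2 / w * gam w g r * (Z / K * (V / K)) = ∑ a ∈ range (LL w), ∑ b ∈ range (LL w),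
      g r a b * (2 / w * (Z / K * (V / K)) / (LL w : ℝ) ^ 2) := by
    have e1 : 2 / (w : ℝ) * gam w g r * (Z / K * (V / K)) =
      2 / w * (gam w g r * (Z / K * (V / K))) := by ring
    rw [e1, hgam, mul_sum]
    refine sum_congr rfl fun a _ => ?_
    rw [mul_sum]
    refine sum_congr rfl fun b _ => ?_
    ring
  have hGle : ∑ a ∈ range (LL w), ∑ b ∈ range (LL w), g r a b ≤ G0 := by
    rw [hG0]
    have h1 : ∑ a ∈ range (LL w), ∑ b ∈ range (LL w), g r a b ≤ ∑ r ∈ (PP w).divisors,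
        ∑ a ∈ range (LL w), ∑ b ∈ range (LL w), g r a b :=
      single_le_sum (f := fun r => ∑ a ∈ range (LL w), ∑ b ∈ range (LL w), g r a b)
        (fun r _ => sum_nonneg fun a _ => sum_nonneg fun b _ => hg r a b) hr
    linarith
  have hlast := MBX_last (∑ a ∈ range (LL w), ∑ b ∈ range (LL w), g r a b) G0 K Z V ρ ε
    ((2 * N) ^ (-c)) T hG01 hGle (sum_nonneg fun a _ => sum_nonneg fun b _ => hg r a b) hK1 hρ hε
    hpm hTb hTc hZT hVT
  rw [hcwsum, hgam, ← sum_sub_distrib]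
  calc |∑ a ∈ range (LL w), ((∑ b ∈ range (LL w), g r a b *
        (∑ z ∈ (Ioc Z₁ Z₂).filter (fun z => z ≡ a [MOD LL w]),
          ∑ y ∈ (Ioc V₁ V₂).filter (fun y => y ≡ b [MOD LL w]),
            (if Nat.Coprime (rad w y) (r * z) then (kap w y ((r * z : ℕ) : ℤ) : ℝ) else 0))) -
        ∑ b ∈ range (LL w), g r a b * (Z / K * (V / K) / (LL w : ℝ) ^ 2))|
      ≤ ∑ a ∈ range (LL w), ∑ b ∈ range (LL w), g r a b *
        (2 / w * (Z / K * (V / K)) / (LL w : ℝ) ^ 2 +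
        ((2 * N) ^ (-c) * (Z * (2 * V)) + ε * (Z * (2 * V)) + 2 * (Z / K + V / K + 1))) := by
        refine le_trans (abs_sum_le_sum_abs _ _) (sum_le_sum fun a _ => ?_)
        rw [← sum_sub_distrib]
        refine le_trans (abs_sum_le_sum_abs _ _) (sum_le_sum fun b _ => ?_)
        rw [← mul_sub, abs_mul, abs_of_nonneg (hg r a b)]
        exact mul_le_mul_of_nonneg_left (key a b) (hg r a b)
    _ = 2 / w * gam w g r * (Z / K * (V / K)) + (∑ a ∈ range (LL w), ∑ b ∈ range (LL w), g r a b) *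
        ((2 * N) ^ (-c) * (Z * (2 * V)) + ε * (Z * (2 * V)) + 2 * (Z / K + V / K + 1)) := by
        rw [hgam2, sum_mul, ← sum_add_distrib]
        refine sum_congr rfl fun a _ => ?_
        rw [sum_mul, ← sum_add_distrib]
        refine sum_congr rfl fun b _ => ?_
        ring
    _ ≤ (2 / w * gam w g r + ρ) * (Z / K * (V / K)) := by
        rw [add_mul]
        linarith

end Pool.Agent.AP
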